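import Mathlib

namespace Pool.Agent.H.MP_c74d57_an
open Set Filter Topology

noncomputable def f (x : ℝ) : ℝ := max 0 (Real.cos x)

theorem f_cont : Continuous f := by unfold f; fun_prop

theorem f_not_diff : ¬ DifferentiableAt ℝ f (Real.pi / 2) := by
  intro h
  have hp := Real.pi_pos
  have h1 : HasDerivWithinAt f 0 (Ici (Real.pi / 2)) (Real.pi / 2) := by
    refine (hasDerivWithinAt_const _ _ (0 : ℝ)).congr_of_eventuallyEq ?_ (by simp [f])
    filter_upwards [Icc_mem_nhdsGE (show Real.pi / 2 < Real.pi by linarith)] with x hx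
    exact max_eq_left (Real.cos_nonpos_of_pi_div_two_le_of_le hx.1 (by linarith [hx.2]))
  have h2 : HasDerivWithinAt f (-1) (Iic (Real.pi / 2)) (Real.pi / 2) := by
    have := (Real.hasDerivAt_cos (Real.pi / 2)).hasDerivWithinAt (s := Iic (Real.pi / 2))
    rw [Real.sin_pi_div_two] at this
    refine this.congr_of_eventuallyEq ?_ (by simp [f])
    filter_upwards [Icc_mem_nhdsLE (show 0 < Real.pi / 2 by linarith)] with x hx
    exact max_eq_right (Real.cos_nonneg_of_mem_Icc ⟨by linarith [hx.1], hx.2⟩)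
  have e1 := (uniqueDiffWithinAt_Ici _).eq_deriv _ h.hasDerivAt.hasDerivWithinAt h1
  have e2 := (uniqueDiffWithinAt_Iic _).eq_deriv _ h.hasDerivAt.hasDerivWithinAt h2
  linarith

theorem f_diff {x : ℝ} (h : Real.cos x ≠ 0) : DifferentiableAt ℝ f x := by
  rcases lt_or_gt_of_ne h with h | h
  · refine (differentiableAt_const (0 : ℝ)).congr_of_eventuallyEq ?_
    filter_upwards [Real.continuous_cos.continuousAt.eventually_lt continuousAt_const h] with y hy
    exact max_eq_left hy.le
  · refine Real.differentiableAt_cos.congr_of_eventuallyEq ?_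
    filter_upwards [continuousAt_const.eventually_lt Real.continuous_cos.continuousAt h] with y hy
    exact max_eq_right hy.le

theorem cos_ne {m : ℤ} (hm : m ≠ 0) : Real.cos (Real.pi / 2 + m) ≠ 0 := by
  rw [add_comm, Real.cos_add_pi_div_two, neg_ne_zero]
  intro h
  obtain ⟨n, hn⟩ := Real.sin_eq_zero_iff.1 h
  have h0 : n ≠ 0 := by
    rintro rfl
    simp at hn
    exact hm (by exact_mod_cast hn.symm)
  exact (irrational_pi.intCast_mul h0).ne_int m hn

theorem indep (s : Finset ℕ) (c : ℕ → ℝ) (h : ∀ x : ℝ, ∑ i ∈ s, c i * f (x - i) = 0) :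
    ∀ i ∈ s, c i = 0 := by
  intro j hj
  by_contra hc
  apply f_not_diff
  have e : f = fun y => -(c j)⁻¹ * ∑ i ∈ s.erase j, c i * f (y + j - i) := by
    ext y
    have := h (y + j)
    rw [← Finset.add_sum_erase _ _ hj, add_sub_cancel_right] at this
    field_simp
    linarith
  rw [e]
  refine DifferentiableAt.const_mul (DifferentiableAt.fun_sum fun i hi => ?_) _
  refine DifferentiableAt.const_mul ?_ _
  refine DifferentiableAt.comp (g := f) (f := fun y : ℝ => y + j - i) _ (f_diff ?_) (by fun_prop)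
  have := cos_ne (m := (j : ℤ) - i) (by have := (Finset.mem_erase.1 hi).1; omega)
  push_cast at this
  rwa [← add_sub_assoc] at this

theorem dense_nat {g : ℝ → ℝ} (hg : Continuous g) (hp : Function.Periodic g (2 * Real.pi))
    (h : ∀ n : ℕ, g n = 0) (x : ℝ) : g x = 0 := by
  have : Fact (0 < 2 * Real.pi) := ⟨Real.two_pi_pos⟩
  have h1 : DenseRange (· • ((1 : ℝ) : AddCircle (2 * Real.pi)) : ℤ → AddCircle (2 * Real.pi)) := by
    rw [AddCircle.denseRange_zsmul_coe_iff, one_div, irrational_inv_iff]
    exact irrational_pi.natCast_mul (m := 2) (by norm_num)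
  rw [denseRange_zsmul_iff_nsmul] at h1
  have h2 := QuotientAddGroup.dense_preimage_mk.2 h1
  refine congrFun (Continuous.ext_on h2 hg continuous_const ?_) x
  rintro y ⟨n, hn⟩
  simp only at hn
  rw [← AddCircle.coe_nsmul, QuotientAddGroup.eq, AddSubgroup.mem_zmultiples_iff] at hn
  obtain ⟨k, hk⟩ := hn
  have : y = n + k • (2 * Real.pi) := by rw [hk]; simp
  rw [this, hp.zsmul k]
  exact h n

noncomputable def q (k : ℕ) : ℝ := (1 / 2) ^ k * f k

theorem q_not_rat (P D : Polynomial ℝ) (h : (D : PowerSeries ℝ) * PowerSeries.mk q = P) :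
    D = 0 := by
  set K := P.natDegree + 1 + D.natDegree with hK
  have h1 : ∀ n : ℕ, ∑ i ∈ Finset.range (D.natDegree + 1),
      D.coeff i * 2 ^ i * f ((n : ℝ) + K - i) = 0 := by
    intro n
    have h2 := congrArg (PowerSeries.coeff (n + K)) h
    rw [PowerSeries.coeff_mul, Finset.Nat.sum_antidiagonal_eq_sum_range_succ_mk,
      Polynomial.coeff_coe, Polynomial.coeff_eq_zero_of_natDegree_lt (by omega)] at h2
    simp only [Polynomial.coeff_coe, PowerSeries.coeff_mk] at h2
    rw [← Finset.sum_subset (s₁ := Finset.range (D.natDegree + 1))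
      (Finset.range_subset_range.2 (by omega)) (fun i _ hi => by
        rw [Polynomial.coeff_eq_zero_of_natDegree_lt (by simpa using hi), zero_mul])] at h2
    have h3 := congrArg (fun t => (2 : ℝ) ^ (n + K) * t) h2
    simp only [Finset.mul_sum, mul_zero] at h3
    rw [← h3]
    refine Finset.sum_congr rfl fun i hi => ?_
    have hi' : i ≤ n + K := by have := Finset.mem_range.1 hi; omega
    obtain ⟨m, hm⟩ := Nat.exists_eq_add_of_le hi'
    have e : (n : ℝ) + K - i = m := by
      have : (n : ℝ) + K = i + m := by exact_mod_cast hm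
      linarith
    rw [e, hm, Nat.add_sub_cancel_left, q, pow_add, one_div, inv_pow]
    field_simp
  have h2 := dense_nat (g := fun x => ∑ i ∈ Finset.range (D.natDegree + 1),
      D.coeff i * 2 ^ i * f (x + K - i)) (by have := f_cont; fun_prop) (fun x => by
        refine Finset.sum_congr rfl fun i _ => ?_
        rw [show x + 2 * Real.pi + K - i = x + K - i + 2 * Real.pi by ring, f, f,
          Real.cos_add_two_pi]) h1
  have h3 := indep _ (fun i => D.coeff i * 2 ^ i) (fun x => by
    have := h2 (x - K)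
    simpa using this) D.natDegree (Finset.self_mem_range_succ _)
  simp only [mul_eq_zero, Polynomial.coeff_natDegree, Polynomial.leadingCoeff_eq_zero] at h3
  exact h3.resolve_right (by positivity)

theorem cos_rat : (((1 - Polynomial.C (Real.cos 1) * Polynomial.X +
    Polynomial.C (1 / 4) * Polynomial.X ^ 2 : Polynomial ℝ) : PowerSeries ℝ)) *
    PowerSeries.mk (fun k : ℕ => (1 / 2 : ℝ) ^ k * Real.cos k) =
    ((1 - Polynomial.C (Real.cos 1 / 2) * Polynomial.X : Polynomial ℝ) : PowerSeries ℝ) := by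
  ext n
  simp only [Polynomial.coe_add, Polynomial.coe_sub, Polynomial.coe_mul, Polynomial.coe_one,
    Polynomial.coe_C, Polynomial.coe_X, Polynomial.coe_pow, add_mul, sub_mul, one_mul, mul_assoc,
    map_add, map_sub, PowerSeries.coeff_C_mul, PowerSeries.coeff_mk]
  rcases n with _ | _ | n
  · simp
  · simp [PowerSeries.coeff_succ_X_mul, PowerSeries.coeff_X_pow_mul', PowerSeries.coeff_one]
    ring
  · rw [PowerSeries.coeff_succ_X_mul, PowerSeries.coeff_X_pow_mul', if_pos (by omega),
      show n + 1 + 1 - 2 = n by omega]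
    simp only [PowerSeries.coeff_mk, PowerSeries.coeff_one, PowerSeries.coeff_X]
    have h1 := Real.cos_add ((n : ℝ) + 1) 1
    have h2 := Real.cos_sub ((n : ℝ) + 1) 1
    rw [add_sub_cancel_right] at h2
    push_cast
    rw [h1, h2]
    simp
    ring

theorem geo_rat : (((1 - Polynomial.C (1 / 2) * Polynomial.X : Polynomial ℝ) : PowerSeries ℝ)) *
    PowerSeries.mk (fun k : ℕ => (1 / 2 : ℝ) ^ k) = ((1 : Polynomial ℝ) : PowerSeries ℝ) := by
  ext n
  simp only [Polynomial.coe_sub, Polynomial.coe_mul, Polynomial.coe_one,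
    Polynomial.coe_C, Polynomial.coe_X, sub_mul, one_mul, mul_assoc,
    map_sub, PowerSeries.coeff_C_mul, PowerSeries.coeff_mk]
  rcases n with _ | n
  · simp
  · rw [PowerSeries.coeff_succ_X_mul]
    simp [PowerSeries.coeff_one]
    ring

theorem median {a b t : ℝ} (hb : 0 ≤ b) (hab : a ≤ b) :
    |0 - max 0 a| + |a - max 0 a| + |b - max 0 a| + |t - max 0 a| ≤
      |0 - t| + |a - t| + |b - t| := by
  rcases le_total 0 a with h | h
  · rw [max_eq_right h, sub_self, abs_zero, zero_sub, abs_neg, abs_of_nonneg h,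
      abs_of_nonneg (sub_nonneg.2 hab), abs_sub_comm t a]
    linarith [neg_le_abs (0 - t), le_abs_self (b - t)]
  · rw [max_eq_left h, sub_self, abs_zero, sub_zero, sub_zero, sub_zero, zero_sub, abs_neg,
      abs_of_nonpos h, abs_of_nonneg hb]
    linarith [neg_le_abs (a - t), le_abs_self (b - t)]

end Pool.Agent.H.MP_c74d57_an
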